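import Mathlib
import Pool.Agent.Y828.WH.Small

set_option autoImplicit false

namespace Pool.Agent.Results.MP_eb267f_nt.PowerOfThreeIndex

open Pool.Agent.Y828.WH

theorem U1 : U 1 = 3 := rfl

theorem U4 : U 4 = 153 := by
  norm_num [U]

/-- The Whiteman pairs are `(17, 53)`, `(46817, 140453)` and the pairs
`(2 U_n^2 - 1, 6 U_n^2 - 1)` with `n = (3^k - 1)/2`, `k ≥ 9`, whose two members are prime. -/
theorem result (p q : ℕ) :
    IsWhitemanPair p q ↔ (p = 17 ∧ q = 53) ∨ (p = 46817 ∧ q = 140453) ∨
      ∃ k : ℕ, 9 ≤ k ∧ (p : ℤ) = 2 * U ((3 ^ k - 1) / 2) ^ 2 - 1 ∧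
        (q : ℤ) = 6 * U ((3 ^ k - 1) / 2) ^ 2 - 1 ∧ p.Prime ∧ q.Prime := by
  constructor
  · intro h
    obtain ⟨n, h1, h2⟩ := step_two h
    obtain ⟨hp, hq, -, -⟩ := h
    obtain ⟨k, hk⟩ := pow_three hq h2
    have hn : n = (3 ^ k - 1) / 2 := by omega
    have hk0 : k ≠ 0 := by
      rintro rfl
      have hn0 : n = 0 := by omega
      rw [hn0, U] at h1
      have : p = 1 := by
        have : (p : ℤ) = 1 := by rw [h1]; norm_num
        exact_mod_cast this
      rw [this] at hp
      exact Nat.not_prime_one hp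
    rcases Nat.lt_or_ge k 9 with hk9 | hk9
    · rcases Nat.lt_or_ge k 3 with hk3 | hk3
      · have hk12 : k = 1 ∨ k = 2 := by omega
        rcases hk12 with rfl | rfl
        · left
          have hn1 : n = 1 := by omega
          rw [hn1, U1] at h1 h2
          norm_num at h1 h2
          constructor
          · exact_mod_cast h1
          · exact_mod_cast h2
        · right; left
          have hn4 : n = 4 := by omega
          rw [hn4, U4] at h1 h2
          norm_num at h1 h2
          constructor
          · exact_mod_cast h1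
          · exact_mod_cast h2
      · exfalso
        rw [hn] at h1 h2
        exact small_excluded hk3 (by omega) h1 h2 hp hq
    · right; right
      exact ⟨k, hk9, by rw [← hn]; exact h1, by rw [← hn]; exact h2, hp, hq⟩
  · rintro (⟨rfl, rfl⟩ | ⟨rfl, rfl⟩ | ⟨k, -, h1, h2, hp, hq⟩)
    · exact whiteman_of (n := 1) (by norm_num) (by norm_num) (by rw [U1]; norm_num)
        (by rw [U1]; norm_num)
    · exact whiteman_of (n := 4) (by norm_num) (by norm_num) (by rw [U4]; norm_num)
        (by rw [U4]; norm_num)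
    · exact whiteman_of hp hq h1 h2

end Pool.Agent.Results.MP_eb267f_nt.PowerOfThreeIndex
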